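import Pool.Agent.Helper89.OS.St2

/-! OS MODULE CGR (project of helper89). -/

set_option autoImplicit false

namespace Pool.Agent.Helper81.OS

open Matrix ComplexConjugate Pool.Agent.Helper94.YF Pool.Agent.Helper94.YG Pool.Agent.Helper89.OS

theorem soi {I : Type} [Fintype I] [DecidableEq I] {p a : ℕ} (X : PD I p a) (i : I) :
    X.s X.o i = X.y i := by rw [X.s_symm, X.s_o]

theorem sumy {I : Type} [Fintype I] [DecidableEq I] {p a : ℕ} (X : PD I p a) :
    ∑ k, X.y k ^ 2 = (p : ℤ) ^ 2 := by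
  have h := X.s_uni X.o X.o
  simp only [if_true, soi] at h
  have h2 : ((∑ k, X.y k ^ 2 : ℤ) : ℂ) = (((p : ℤ) ^ 2 : ℤ) : ℂ) := by
    push_cast
    rw [← h]
    apply Finset.sum_congr rfl
    intro k _
    simp [sq]
  exact_mod_cast h2

theorem hCGR : StCGR := by
  intro hR I _ _ p a X Q hQ hx j hj
  obtain ⟨w, hw1, hw2⟩ := X.con
  have pp : Prime (p : ℤ) := Nat.prime_iff_prime_int.mp X.prime
  have hm : ¬ (p : ℤ) ∣ (X.m : ℤ) ^ 2 := by
    intro h
    exact X.cop (by exact_mod_cast pp.dvd_of_dvd_pow h)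
  have hQm : ¬ Q ((X.m : ℂ) ^ 2) := by
    intro h
    apply hm
    rw [← hQ.int_iff]
    push_cast
    exact h
  have hC' : ∀ i, (X.m : ℂ) ^ 2 * X.y i = ∑ k, w i k * X.d k := by
    intro i
    have h := hw2 i X.o
    rw [soi, X.d_o] at h
    rw [h]
    simp [X.o_chi]
  have hdiff : ∀ i, Q ((∑ k, w i k * X.chi j k) - ∑ k, w i k * X.d k) := by
    intro i
    rw [← Finset.sum_sub_distrib]
    apply Finset.sum_induction _ Q hQ.add hQ.zero
    intro k _
    rw [← mul_sub]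
    exact hQ.mul _ _ (hw1 i k) (hj k)
  have hint : ∀ n : ℤ, IsIntegral ℤ (n : ℂ) := fun n => isIntegral_algebraMap
  have hnat : ∀ n : ℕ, IsIntegral ℤ (n : ℂ) := fun n => by
    have := hint n
    exact_mod_cast this
  have h4 : ∀ i, Q (X.s j i - X.d j * X.y i) := by
    intro i
    have h1 : (X.m : ℂ) ^ 2 * (X.s j i - X.d j * X.y i) =
        (X.d j : ℂ) * ((∑ k, w i k * X.chi j k) - ∑ k, w i k * X.d k) := by
      rw [mul_sub, mul_sub, ← hw2 i j, ← hC' i]
      ring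
    have h2 : Q ((X.m : ℂ) ^ 2 * (X.s j i - X.d j * X.y i)) := by
      rw [h1]
      exact hQ.mul _ _ (hnat _) (hdiff i)
    rcases hQ.prime _ _ ((hnat _).pow 2)
      ((X.s_int j i).sub ((hnat _).mul (hint _))) h2 with h | h
    · exact absurd h hQm
    · exact h
  -- the rational integer c
  have hdj : (X.d j : ℂ) ≠ 0 := by
    have := X.d_pos j
    exact_mod_cast this.ne'
  have hCo := hw2 X.o j
  rw [X.s_o] at hCo
  have hCint : IsIntegral ℤ (∑ k, w X.o k * X.chi j k) :=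
    IsIntegral.sum _ fun k _ => (hw1 _ _).mul (X.chi_int _ _)
  have hCq : (((X.m : ℚ) ^ 2 * X.y j / X.d j : ℚ) : ℂ) = ∑ k, w X.o k * X.chi j k := by
    push_cast
    rw [hCo]
    field_simp
  obtain ⟨c, hc⟩ := hR.2 ((X.m : ℚ) ^ 2 * X.y j / X.d j) (by rw [hCq]; exact hCint)
  have hcC : (c : ℂ) = ∑ k, w X.o k * X.chi j k := by
    rw [← hCq, ← hc]
    simp
  have hpc : ¬ (p : ℤ) ∣ c := by
    intro h
    have h1 := hdiff X.o
    rw [← hcC, ← hC' X.o] at h1
    have h2 : Q ((c - (X.m : ℤ) ^ 2 * X.y X.o : ℤ) : ℂ) := by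
      push_cast
      exact h1
    rw [hQ.int_iff] at h2
    have h3 : (p : ℤ) ∣ (X.m : ℤ) ^ 2 * X.y X.o := by
      have := dvd_sub h h2
      simpa using this
    rcases pp.dvd_or_dvd h3 with h4 | h4
    · exact hm h4
    · exact hx h4
  have hmy : (X.m : ℤ) ^ 2 * X.y j = X.d j * c := by
    have h1 : ((X.m : ℂ) ^ 2 * X.y j) = X.d j * c := by rw [hcC, hCo]
    exact_mod_cast h1
  have hy0 : X.y j ≠ 0 := by
    intro h
    rw [h, mul_zero] at hmy
    have hd : (X.d j : ℤ) ≠ 0 := by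
      have := X.d_pos j
      exact_mod_cast this.ne'
    rcases mul_eq_zero.mp hmy.symm with h1 | h1
    · exact hd h1
    · exact hpc (by rw [h1]; exact dvd_zero _)
  have hpy : ¬ (p : ℤ) ∣ X.y j := by
    intro h
    have hjo : j ≠ X.o := by
      rintro rfl
      exact hx h
    have h1 : (p : ℤ) ^ 2 ≤ X.y j ^ 2 := by
      have := Int.le_of_dvd (by positivity : 0 < X.y j ^ 2) (pow_dvd_pow_of_dvd h 2)
      exact this
    have h2 : 0 < X.y X.o ^ 2 := by
      have : X.y X.o ≠ 0 := by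
        intro h0
        exact hx (by rw [h0]; exact dvd_zero _)
      positivity
    have h3 : X.y j ^ 2 + X.y X.o ^ 2 ≤ ∑ k, X.y k ^ 2 := by
      rw [← Finset.sum_pair hjo (f := fun k => X.y k ^ 2)]
      exact Finset.sum_le_sum_of_subset_of_nonneg (Finset.subset_univ _) fun k _ _ => sq_nonneg _
    rw [sumy] at h3
    linarith
  refine ⟨hy0, ?_, hpy, h4⟩
  intro h
  have h1 : (p : ℤ) ∣ (X.m : ℤ) ^ 2 * X.y j := by
    rw [hmy]
    exact Dvd.dvd.mul_right (by exact_mod_cast h) _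
  rcases pp.dvd_or_dvd h1 with h2 | h2
  · exact hm h2
  · exact hpy h2

end Pool.Agent.Helper81.OS
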